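import Pool.Agent.V5helper90.ZL.Stm

/-!
# Job SQ: Hodge classes on a power and on the next power
-/

set_option autoImplicit false

open CategoryTheory AlgebraicGeometry

universe u

namespace Pool.Agent.V5helper90.ZL

open Pool.Agent.H914 Pool.Agent.H914.VarClass Pool.Agent.H914.VarClass.Obj
  Pool.Agent.H914.WeilCohomology
open Pool.Agent.Y133.Half Pool.Agent.Y121.AH

/-- The powers of an algebraic class. -/
lemma algSys_pow {k : Type u} [Field k] {𝒱 : VarClass k} {ops : CycleOps 𝒱}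
    {W : WeilCohomology.{u, 0} ops} {X : 𝒱.Obj} {c : W.H X} (hc : c ∈ (algSys W).C X) (n : ℕ) :
    c ^ n ∈ (algSys W).C X := by
  induction n with
  | zero => rw [pow_zero]; exact (algSys W).one X
  | succ n ih => rw [pow_succ]; exact (algSys W).mul ih hc

theorem t_SQ : S_SQ.{u} := by
  intro k _ 𝒱 ops T X n d i hX hi hall c hc
  obtain ⟨E, hE⟩ := T.dec.polar X
  have h1 : (1 : T.W.H X) ∈ T.W.gr X (2 * 0) := T.W.one_mem X
  have h2 : IsHodge T X 0 (1 : T.W.H X) := Pool.Agent.N996.BP.Geo.isHodge_one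
  have hH : ∀ n, IsHodge T X n (T.W.cl X E ^ n) := fun n => by
    have := (IsHodge.cl (T := T) hE.1).pow n
    rwa [one_mul] at this
  have h3 : T.W.cl X E ^ (X.dim - 2 * 0 + 1) * (1 : T.W.H X) = 0 := by
    have h4 := (hH (X.dim - 2 * 0 + 1)).1
    rw [T.W.gr_eq_bot X _ (by omega)] at h4
    rw [(Submodule.mem_bot _).1 h4, zero_mul]
  obtain ⟨r, hr, h4⟩ := hE.2.2 0 (by omega) 1 h1 h2.2 h3 one_ne_zero
  rw [pow_zero, one_mul, mul_one, mul_one, mul_zero, Nat.sub_zero] at h4
  have h5 : T.W.tr X (T.W.cl X E ^ X.dim) ≠ 0 := by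
    intro h0
    rw [h0] at h4
    have h6 : r = 0 := by exact_mod_cast h4.symm
    exact hr.ne' h6
  have hE' : T.W.cl X E ∈ (algSys T.W).C X := Pool.Agent.W536.RR.cl_mem_algSpan hE.1
  -- the external product is a Hodge class
  have h7 : IsHodge T ((pw X n).prod X) (d + i)
      (T.W.map (fst (pw X n) X) c * T.W.map (snd (pw X n) X) (T.W.cl X E ^ i)) :=
    (hc.map (fst (pw X n) X)).mul ((hH i).map (snd (pw X n) X))
  have h8 : T.W.map (fst (pw X n) X) c * T.W.map (snd (pw X n) X) (T.W.cl X E ^ i) ∈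
      (algSys T.W).C ((pw X n).prod X) := hall _ h7
  have h9 := (algSys T.W).mul h8
    ((algSys T.W).map (snd (pw X n) X) (algSys_pow hE' (X.dim - i)))
  rw [mul_assoc, ← map_mul (T.W.map (snd (pw X n) X)), ← pow_add,
    show i + (X.dim - i) = X.dim by omega] at h9
  have h10 := (algSys T.W).push (fst (pw X n) X) h9
  have h11 := Pool.Agent.Y133.Half.push_fst (W := T.W) (X := pw X n) (Y := X) c
    (T.W.cl X E ^ X.dim) ((algSys T.W).even (algSys_pow hE' X.dim))
  rw [Pool.Agent.Y133.Half.xp_def] at h11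
  rw [h11] at h10
  have h12 := Submodule.smul_mem _ (T.W.tr X (T.W.cl X E ^ X.dim))⁻¹ h10
  rwa [smul_smul, inv_mul_cancel₀ h5, one_smul] at h12

end Pool.Agent.V5helper90.ZL
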